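import Pool.Agent.Helper878_bj.Main

/-!
# Many nonterminals compared with the number of hard terminal sets
-/

set_option autoImplicit false
set_option linter.unusedSectionVars false

namespace Pool.Agent.Helper878_bl

open Finset Pool.Agent.NPC Pool.Agent.H671R2.SF Pool.Agent.Helper878_dcs Pool.Agent.Helper878_mm
open Pool.Agent.Helper878_bs Pool.Agent.Helper878_bg Pool.Agent.Helper878_bh
open Pool.Agent.Helper878_bj
open scoped Classical

/-- the algorithm -/
def solveM (I : Inst) : Bool :=
  wfB I && kpB I.1 I.2.1 && (decide (49 * (hards I).length ≤ (freeV I.1 I.2.2).length) &&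
    core I.2.1 (freeV I.1 I.2.2) (hards I))

theorem poly_solveM : Poly solveM := by
  unfold solveM wfB kpB nodupB hards
  fun_prop

theorem solveM_iff (I : Inst) : (WellFormed I ∧ Free twoP1P2 (graph I.1 I.2.1) ∧
    49 * numHard I ≤ numFree I ∧ DCS I) ↔ solveM I = true := by
  unfold solveM
  rw [Bool.and_eq_true, Bool.and_eq_true, Bool.and_eq_true, wfB_iff, kpB_iff,
    free_iff, decide_eq_true_eq, and_assoc]
  refine and_congr_right fun hw => and_congr_right fun hK => ?_
  rw [numHard_eq hw hK, numFree_eq hw]
  refine and_congr_right fun hn => ?_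
  rw [core_iff (lctxH hw hK) hn, dcs_iff hw hK, feas_hard (lctx hw hK)]
  rfl

theorem mainM : InPP (fun I : Inst => WellFormed I ∧ Free twoP1P2 (graph I.1 I.2.1) ∧
    49 * numHard I ≤ numFree I ∧ DCS I) :=
  inPP_of poly_solveM fun I => solveM_iff I

/-- There are at most as many hard terminal sets as disconnected ones. -/
theorem numHard_le {I : Inst} (hw : WellFormed I) (hF : Free twoP1P2 (graph I.1 I.2.1)) :
    numHard I ≤ numDisc I := by
  have hK : KP (GG I.2.1) I.1.toFinset := free_iff.1 hF
  rw [numHard_eq hw hK, numDisc_eq hw hK]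
  exact List.length_filter_le _ _

end Pool.Agent.Helper878_bl
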